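import Pool.Agent.Lib.MP_4fbe7c_an.FC.Iface
import Pool.Agent.Lib.MP_4fbe7c_an.SD.Calc
import Pool.Agent.Lib.MP_4fbe7c_an.SD.Cmp

/-!
Project FC (MP_4fbe7c_an), module THT (helper22): bounds for the steady state which do not depend
on the rate.
-/

set_option autoImplicit false

open Set MeasureTheory intervalIntegral

namespace Pool.Agent.Lib.MP_4fbe7c_an.FC.H22

open Pool.Agent.Lib.MP_4fbe7c_an.SD Pool.Agent.Lib.MP_4fbe7c_an.FC

theorem tht : ThtStatement := by
  intro L m₀ Λ d m m' θ θ' θ'' hL hm0 hd hm hmc hmlow hΛ hθ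
  have hcθ : ContinuousOn θ (Icc 0 L) := hθ.d1.continuousOn
  have hcθ' : ContinuousOn θ' (Icc 0 L) := hθ.d2.continuousOn
  have hcm : ContinuousOn m (Icc 0 L) := hm.continuousOn
  -- the lower bound
  have hlow : ∀ x ∈ Icc 0 L, m₀ ≤ θ x := by
    obtain ⟨x0, hx0, hmin⟩ := isCompact_Icc.exists_isMinOn (nonempty_Icc.2 hL.le) hcθ
    have h1 : -θ'' x0 ≤ 0 := by
      refine second_deriv_nonpos (g := fun x => -θ x) (g1 := fun x => -θ' x) hL ?_ ?_ ?_ hx0 ?_ ?_
      · intro x hx
        exact (hθ.d1 x hx).neg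
      · simp [hθ.b0]
      · simp [hθ.bL]
      · intro x hx
        have := hmin hx
        simp only [mem_setOf_eq] at this
        linarith
      · exact (hθ.d2 x0 hx0).neg
    have h2 := hθ.eq x0 hx0
    have h3 := hθ.pos x0 hx0
    have h4 : m x0 ≤ θ x0 := by
      by_contra hcon
      push Not at hcon
      have h5 : 0 < θ x0 * (m x0 - θ x0) := mul_pos h3 (by linarith)
      have h6 : 0 ≤ d * θ'' x0 := mul_nonneg hd.le (by linarith)
      linarith
    intro x hx
    have := hmin hx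
    simp only [mem_setOf_eq] at this
    linarith [hmlow x0 hx0]
  -- continuity of the second derivative
  have hcθ'' : ContinuousOn θ'' (Icc 0 L) := by
    have h1 : ContinuousOn (fun x => -(θ x * (m x - θ x)) / d) (Icc 0 L) :=
      ((hcθ.mul (hcm.sub hcθ)).neg).div_const d
    refine h1.congr fun x hx => ?_
    have := hθ.eq x hx
    rw [eq_div_iff hd.ne']
    linarith
  -- integration by parts
  have hF : DerivOn L (fun x => θ' x * (m x - θ x))
      (fun x => θ'' x * (m x - θ x) + θ' x * (m' x - θ' x)) := by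
    intro x hx
    exact (hθ.d2 x hx).mul ((hm x hx).sub (hθ.d1 x hx))
  have hcA : ContinuousOn (fun x => θ'' x * (m x - θ x)) (Icc 0 L) := hcθ''.mul (hcm.sub hcθ)
  have hcB : ContinuousOn (fun x => θ' x * (m' x - θ' x)) (Icc 0 L) := hcθ'.mul (hmc.sub hcθ')
  have hI := integral_deriv hL hF (hcA.add hcB)
  simp only [hθ.b0, hθ.bL, zero_mul, sub_zero] at hI
  have ii : ∀ {f : ℝ → ℝ}, ContinuousOn f (Icc 0 L) → IntervalIntegrable f volume 0 L :=
    fun hf => (hf.mono (by rw [uIcc_of_le hL.le])).intervalIntegrable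
  rw [intervalIntegral.integral_add (ii hcA) (ii hcB)] at hI
  -- the sign of the first term
  have hA : ∀ x ∈ Icc 0 L, (m x - θ x) ^ 2 ≤ d / m₀ * -(θ'' x * (m x - θ x)) := by
    intro x hx
    have h1 := hθ.eq x hx
    have h2 := hlow x hx
    have e : -(θ'' x * (m x - θ x)) = θ x * (m x - θ x) ^ 2 / d := by
      rw [eq_div_iff hd.ne']
      linear_combination (-(m x - θ x)) * h1
    rw [e]
    have e2 : d / m₀ * (θ x * (m x - θ x) ^ 2 / d) = θ x / m₀ * (m x - θ x) ^ 2 := by
      field_simp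
    rw [e2]
    have h3 : 1 ≤ θ x / m₀ := by rwa [le_div_iff₀ hm0, one_mul]
    nlinarith [sq_nonneg (m x - θ x)]
  have hA0 : ∀ x ∈ Icc 0 L, 0 ≤ -(θ'' x * (m x - θ x)) := by
    intro x hx
    have h1 := hA x hx
    have h2 : 0 < d / m₀ := by positivity
    have h3 : 0 ≤ d / m₀ * -(θ'' x * (m x - θ x)) := le_trans (sq_nonneg _) h1
    exact nonneg_of_mul_nonneg_right h3 h2
  have hIA : 0 ≤ -∫ x in (0)..L, θ'' x * (m x - θ x) := by
    rw [← intervalIntegral.integral_neg]
    exact intervalIntegral.integral_nonneg hL.le hA0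
  have hc1 : ContinuousOn (fun x => θ' x ^ 2) (Icc 0 L) := hcθ'.pow 2
  have hc2 : ContinuousOn (fun x => m' x ^ 2) (Icc 0 L) := hmc.pow 2
  -- first Young inequality
  have hB1 : ∫ x in (0)..L, θ' x * (m' x - θ' x) ≤
      1 / 2 * (∫ x in (0)..L, m' x ^ 2) - 1 / 2 * ∫ x in (0)..L, θ' x ^ 2 := by
    rw [← intervalIntegral.integral_const_mul, ← intervalIntegral.integral_const_mul,
      ← intervalIntegral.integral_sub ((ii hc2).const_mul _) ((ii hc1).const_mul _)]
    refine intervalIntegral.integral_mono_on hL.le (ii hcB)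
      (((ii hc2).const_mul _).sub ((ii hc1).const_mul _)) fun x _ => ?_
    nlinarith [sq_nonneg (m' x - θ' x)]
  have hB2 : ∫ x in (0)..L, θ' x * (m' x - θ' x) ≤ 1 / 4 * ∫ x in (0)..L, m' x ^ 2 := by
    rw [← intervalIntegral.integral_const_mul]
    refine intervalIntegral.integral_mono_on hL.le (ii hcB) ((ii hc2).const_mul _) fun x _ => ?_
    nlinarith [sq_nonneg (m' x / 2 - θ' x)]
  refine ⟨hlow, ?_, ?_⟩
  · linarith
  · have h1 : ∫ x in (0)..L, (m x - θ x) ^ 2 ≤
        ∫ x in (0)..L, d / m₀ * -(θ'' x * (m x - θ x)) :=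
      intervalIntegral.integral_mono_on hL.le (ii ((hcm.sub hcθ).pow 2))
        ((ii hcA.neg).const_mul _) hA
    rw [intervalIntegral.integral_const_mul, intervalIntegral.integral_neg] at h1
    refine h1.trans ?_
    have h2 : -∫ x in (0)..L, θ'' x * (m x - θ x) ≤ Λ / 4 := by linarith
    have h3 : d / m₀ * (-∫ x in (0)..L, θ'' x * (m x - θ x)) ≤ d / m₀ * (Λ / 4) :=
      mul_le_mul_of_nonneg_left h2 (by positivity)
    refine h3.trans (le_of_eq ?_)
    field_simp

end Pool.Agent.Lib.MP_4fbe7c_an.FC.H22
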